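import Pool.Agent.Lib.MP_0a5adf_nt.EXR.Base
import Pool.Agent.Lib.MP_0a5adf_nt.EXP.H78.Cs

/-!
# Module CSG: two Cauchy-Schwarz steps for four different types of words
-/

set_option autoImplicit false

namespace Pool.Agent.Lib.MP_0a5adf_nt.EXR.H78

open Finset Pool.Agent.Lib.MP_0a5adf_nt.EXP

/-- the second step -/
lemma sum_energy {W W' G : Type} [DecidableEq W] [DecidableEq W'] [AddCommGroup G]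
    [DecidableEq G] (C : Finset W) (D : Finset W') (f : W → G) (h : W' → G) :
    (#{q ∈ (C ×ˢ D) ×ˢ (C ×ˢ D) | f q.1.1 + h q.1.2 = f q.2.1 + h q.2.2}) ^ 2 ≤
      #{q ∈ quad C | f q.1 + f q.2.1 = f q.2.2.1 + f q.2.2.2} *
      #{q ∈ quad D | h q.1 + h q.2.1 = h q.2.2.1 + h q.2.2.2} := by
  have e1 : #{q ∈ (C ×ˢ D) ×ˢ (C ×ˢ D) | f q.1.1 + h q.1.2 = f q.2.1 + h q.2.2} =
      #{q ∈ (C ×ˢ C) ×ˢ (D ×ˢ D) | f q.1.1 - f q.1.2 = h q.2.2 - h q.2.1} := by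
    apply Finset.card_nbij' (fun q => ((q.1.1, q.2.1), (q.1.2, q.2.2)))
      (fun q => ((q.1.1, q.2.1), (q.1.2, q.2.2)))
    · rintro ⟨⟨a, b⟩, ⟨c, d⟩⟩ hq
      simp only [coe_filter, mem_product, Set.mem_ofPred_eq] at hq ⊢
      obtain ⟨⟨⟨h1, h2⟩, h3, h4⟩, h5⟩ := hq
      refine ⟨⟨⟨h1, h3⟩, h2, h4⟩, ?_⟩
      rw [sub_eq_sub_iff_add_eq_add, h5, add_comm]
    · rintro ⟨⟨a, b⟩, ⟨c, d⟩⟩ hq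
      simp only [coe_filter, mem_product, Set.mem_ofPred_eq] at hq ⊢
      obtain ⟨⟨⟨h1, h2⟩, h3, h4⟩, h5⟩ := hq
      refine ⟨⟨⟨h1, h3⟩, h2, h4⟩, ?_⟩
      rw [sub_eq_sub_iff_add_eq_add] at h5
      rw [h5, add_comm]
    · rintro ⟨⟨a, b⟩, ⟨c, d⟩⟩ _
      rfl
    · rintro ⟨⟨a, b⟩, ⟨c, d⟩⟩ _
      rfl
  have e2 : #{q ∈ (C ×ˢ C) ×ˢ (C ×ˢ C) | f q.1.1 - f q.1.2 = f q.2.1 - f q.2.2} =
      #{q ∈ quad C | f q.1 + f q.2.1 = f q.2.2.1 + f q.2.2.2} := by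
    apply Finset.card_nbij' (fun q => (q.1.1, q.2.2, q.2.1, q.1.2))
      (fun q => ((q.1, q.2.2.2), (q.2.2.1, q.2.1)))
    · rintro ⟨⟨a, b⟩, ⟨c, d⟩⟩ hq
      simp only [quad, coe_filter, mem_product, Set.mem_ofPred_eq] at hq ⊢
      obtain ⟨⟨⟨h1, h2⟩, h3, h4⟩, h5⟩ := hq
      rw [sub_eq_sub_iff_add_eq_add] at h5
      exact ⟨⟨h1, h4, h3, h2⟩, h5⟩
    · rintro ⟨a, b, c, d⟩ hq
      simp only [quad, coe_filter, mem_product, Set.mem_ofPred_eq] at hq ⊢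
      obtain ⟨⟨h1, h2, h3, h4⟩, h5⟩ := hq
      rw [sub_eq_sub_iff_add_eq_add]
      exact ⟨⟨⟨h1, h4⟩, h3, h2⟩, h5⟩
    · rintro ⟨⟨a, b⟩, ⟨c, d⟩⟩ _
      rfl
    · rintro ⟨a, b, c, d⟩ _
      rfl
  have e3 : #{q ∈ (D ×ˢ D) ×ˢ (D ×ˢ D) | h q.1.2 - h q.1.1 = h q.2.2 - h q.2.1} =
      #{q ∈ quad D | h q.1 + h q.2.1 = h q.2.2.1 + h q.2.2.2} := by
    apply Finset.card_nbij' (fun q => (q.1.2, q.2.1, q.2.2, q.1.1))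
      (fun q => ((q.2.2.2, q.1), (q.2.1, q.2.2.1)))
    · rintro ⟨⟨a, b⟩, ⟨c, d⟩⟩ hq
      simp only [quad, coe_filter, mem_product, Set.mem_ofPred_eq] at hq ⊢
      obtain ⟨⟨⟨h1, h2⟩, h3, h4⟩, h5⟩ := hq
      rw [sub_eq_sub_iff_add_eq_add] at h5
      exact ⟨⟨h2, h3, h4, h1⟩, h5⟩
    · rintro ⟨a, b, c, d⟩ hq
      simp only [quad, coe_filter, mem_product, Set.mem_ofPred_eq] at hq ⊢
      obtain ⟨⟨h1, h2, h3, h4⟩, h5⟩ := hq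
      rw [sub_eq_sub_iff_add_eq_add]
      exact ⟨⟨⟨h4, h1⟩, h2, h3⟩, h5⟩
    · rintro ⟨⟨a, b⟩, ⟨c, d⟩⟩ _
      rfl
    · rintro ⟨a, b, c, d⟩ _
      rfl
  rw [e1, ← e2, ← e3]
  exact EXP.H78.pairs_sq (C ×ˢ C) (D ×ˢ D) (fun q => f q.1 - f q.2) (fun q => h q.2 - h q.1)

theorem csg : CsGStatement := by
  intro W0 W1 W2 W3 G _ _ _ _ _ _ C0 C1 C2 C3 f0 f1 f2 f3 g
  have e0 : #{q ∈ C0 ×ˢ C1 ×ˢ C2 ×ˢ C3 | f0 q.1 + f1 q.2.1 + f2 q.2.2.1 +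
      f3 q.2.2.2 = g} =
      #{q ∈ (C0 ×ˢ C1) ×ˢ (C2 ×ˢ C3) | f0 q.1.1 + f1 q.1.2 =
        g - (f2 q.2.1 + f3 q.2.2)} := by
    apply Finset.card_nbij' (fun q => ((q.1, q.2.1), (q.2.2.1, q.2.2.2)))
      (fun q => (q.1.1, q.1.2, q.2.1, q.2.2))
    · rintro ⟨a, b, c, d⟩ hq
      simp only [coe_filter, mem_product, Set.mem_ofPred_eq] at hq ⊢
      obtain ⟨⟨h1, h2, h3, h4⟩, h5⟩ := hq
      refine ⟨⟨⟨h1, h2⟩, h3, h4⟩, ?_⟩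
      rw [← h5]
      abel
    · rintro ⟨⟨a, b⟩, ⟨c, d⟩⟩ hq
      simp only [coe_filter, mem_product, Set.mem_ofPred_eq] at hq ⊢
      obtain ⟨⟨⟨h1, h2⟩, h3, h4⟩, h5⟩ := hq
      refine ⟨⟨h1, h2, h3, h4⟩, ?_⟩
      rw [h5]
      abel
    · rintro ⟨a, b, c, d⟩ _
      rfl
    · rintro ⟨⟨a, b⟩, ⟨c, d⟩⟩ _
      rfl
  have h1 := EXP.H78.pairs_sq (C0 ×ˢ C1) (C2 ×ˢ C3) (fun q => f0 q.1 + f1 q.2)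
    (fun q => g - (f2 q.1 + f3 q.2))
  have e1 : #{q ∈ (C2 ×ˢ C3) ×ˢ (C2 ×ˢ C3) | g - (f2 q.1.1 + f3 q.1.2) =
      g - (f2 q.2.1 + f3 q.2.2)} =
      #{q ∈ (C2 ×ˢ C3) ×ˢ (C2 ×ˢ C3) | f2 q.1.1 + f3 q.1.2 = f2 q.2.1 + f3 q.2.2} := by
    congr 1
    apply Finset.filter_congr
    intro q _
    exact sub_right_inj
  rw [e1] at h1
  have h2 := sum_energy C0 C1 f0 f1
  have h3 := sum_energy C2 C3 f2 f3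
  rw [e0]
  set N := #{q ∈ (C0 ×ˢ C1) ×ˢ (C2 ×ˢ C3) | f0 q.1.1 + f1 q.1.2 =
        g - (f2 q.2.1 + f3 q.2.2)}
  calc N ^ 4 = (N ^ 2) ^ 2 := by ring
    _ ≤ (#{q ∈ (C0 ×ˢ C1) ×ˢ (C0 ×ˢ C1) | f0 q.1.1 + f1 q.1.2 = f0 q.2.1 + f1 q.2.2} *
        #{q ∈ (C2 ×ˢ C3) ×ˢ (C2 ×ˢ C3) |
          f2 q.1.1 + f3 q.1.2 = f2 q.2.1 + f3 q.2.2}) ^ 2 := Nat.pow_le_pow_left h1 2
    _ = #{q ∈ (C0 ×ˢ C1) ×ˢ (C0 ×ˢ C1) | f0 q.1.1 + f1 q.1.2 = f0 q.2.1 + f1 q.2.2} ^ 2 *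
        #{q ∈ (C2 ×ˢ C3) ×ˢ (C2 ×ˢ C3) |
          f2 q.1.1 + f3 q.1.2 = f2 q.2.1 + f3 q.2.2} ^ 2 := mul_pow _ _ _
    _ ≤ _ := Nat.mul_le_mul h2 h3
    _ = _ := by ring

end Pool.Agent.Lib.MP_0a5adf_nt.EXR.H78
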